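import Pool.Agent.H494R3.NK.Stmts

/-! Equality of classes of idempotents of the ring in the monoid `V(R)`. -/

set_option autoImplicit false

namespace Pool.Agent.H211R3.NK

open Pool.Agent.H494R3.NK

universe u

theorem s1_mul {R : Type u} [NonUnitalRing R] (a b : R) : s1 a * s1 b = s1 (a * b) := by
  ext i j
  rw [Matrix.mul_apply]
  simp [s1]

theorem mul_entry {R : Type u} [NonUnitalRing R] {x y : Matrix (Fin 1) (Fin 1) R} {a : R}
    (h : x * y = s1 a) : x 0 0 * y 0 0 = a := by
  have h1 := congrFun (congrFun h 0) 0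
  rw [Matrix.mul_apply] at h1
  simpa [s1] using h1

theorem taskEq : TaskEq.{u} := by
  intro R _ p q hp hq
  unfold cl
  rw [VV.mk_eq]
  constructor
  · rintro ⟨x, y, h1, h2⟩
    have e1 : x 0 0 * y 0 0 = p := mul_entry h1
    have e2 : y 0 0 * x 0 0 = q := mul_entry h2
    generalize x 0 0 = s at e1 e2
    generalize y 0 0 = t at e1 e2
    have hpp : ∀ a, p * (p * a) = p * a := fun a => by rw [← mul_assoc, hp]
    have hqq : ∀ a, q * (q * a) = q * a := fun a => by rw [← mul_assoc, hq]
    have hst : ∀ a, s * (t * a) = p * a := fun a => by rw [← mul_assoc, e1]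
    have hts : ∀ a, t * (s * a) = q * a := fun a => by rw [← mul_assoc, e2]
    refine ⟨p * s * q, q * t * p, ?_, ?_, ?_, ?_, ?_, ?_⟩
    · calc p * s * q * (q * t * p) = p * (s * (q * (q * (t * p)))) := by simp only [mul_assoc]
        _ = p * (s * (t * (s * (t * p)))) := by rw [hqq, ← e2, mul_assoc]
        _ = p := by rw [hst, hst, hpp, hpp, hp]
    · calc q * t * p * (p * s * q) = q * (t * (p * (p * (s * q)))) := by simp only [mul_assoc]
        _ = q * (t * (s * (t * (s * q)))) := by rw [hpp, ← e1, mul_assoc]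
        _ = q := by rw [hts, hts, hqq, hqq, hq]
    · rw [← mul_assoc, ← mul_assoc, hp]
    · rw [mul_assoc, hq]
    · rw [← mul_assoc, ← mul_assoc, hq]
    · rw [mul_assoc, hp]
  · rintro ⟨s, t, h1, h2, -⟩
    refine ⟨s1 s, s1 t, ?_, ?_⟩
    · rw [s1_mul, h1]
    · rw [s1_mul, h2]

theorem taskZero : TaskZero.{u} := by
  intro R _ p hp
  unfold cl
  rw [VV.zero_mk, VV.mk_eq]
  constructor
  · rintro ⟨x, y, h1, -⟩
    have : IsEmpty (Fin (Idem.zero R).size) := inferInstanceAs (IsEmpty (Fin 0))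
    have h2 := congrFun (congrFun h1 0) 0
    rw [Matrix.mul_apply, Finset.sum_of_isEmpty] at h2
    exact h2.symm
  · rintro rfl
    have h : s1 (0 : R) = 0 := by
      ext i j
      rfl
    change Eqv (s1 (0 : R)) (0 : Matrix (Fin 0) (Fin 0) R)
    rw [h]
    exact Eqv.zero

end Pool.Agent.H211R3.NK
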